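import Pool.Agent.helper28.LT.Defs

/-!
# Module CL: the number of integers of absolute value at most `M` in a residue class
-/

set_option autoImplicit false

namespace Pool.Agent.helper28.LT

open Finset

theorem CL_card (M P : ℕ) (hP : 1 ≤ P) (r : ℤ) :
    (((cls M P r).card : ℕ) : ℤ) = max (⌊(((M : ℤ) : ℚ) - (r : ℚ)) / ((P : ℤ) : ℚ)⌋ -
      ⌊(((-(M : ℤ) - 1 : ℤ) : ℚ) - (r : ℚ)) / ((P : ℤ) : ℚ)⌋) 0 := by
  have h := Int.Ioc_filter_modEq_card (-(M : ℤ) - 1) (M : ℤ) (r := (P : ℤ))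
    (by exact_mod_cast hP) r
  rw [← h]
  congr 2
  unfold cls
  ext m
  simp only [mem_filter, mem_Icc, mem_Ioc, Int.modEq_iff_dvd]
  constructor
  · rintro ⟨⟨h1, h2⟩, h3⟩
    exact ⟨⟨by omega, h2⟩, (dvd_sub_comm).mp h3⟩
  · rintro ⟨⟨h1, h2⟩, h3⟩
    exact ⟨⟨by omega, h2⟩, (dvd_sub_comm).mp h3⟩

/-- CL -/
theorem cls_card_le (M P : ℕ) (hP : 1 ≤ P) (hM : P ≤ M) (r : ℤ) :
    ((cls M P r).card : ℝ) ≤ 4 * M / P := by
  have h := CL_card M P hP r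
  have hP' : (0 : ℚ) < P := by exact_mod_cast hP
  have hM' : (P : ℚ) ≤ M := by exact_mod_cast hM
  have h1 := Int.floor_le ((((M : ℤ) : ℚ) - (r : ℚ)) / ((P : ℤ) : ℚ))
  have h2 := Int.lt_floor_add_one ((((-(M : ℤ) - 1 : ℤ) : ℚ) - (r : ℚ)) / ((P : ℤ) : ℚ))
  have h3 : (((cls M P r).card : ℕ) : ℚ) ≤ 4 * M / P := by
    have h4 : (((cls M P r).card : ℤ) : ℚ) = ((max (⌊(((M : ℤ) : ℚ) - (r : ℚ)) / ((P : ℤ) : ℚ)⌋ -
      ⌊(((-(M : ℤ) - 1 : ℤ) : ℚ) - (r : ℚ)) / ((P : ℤ) : ℚ)⌋) 0 : ℤ) : ℚ) := by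
      rw [h]
    rw [Int.cast_natCast] at h4
    rw [h4, Int.cast_max, max_le_iff]
    refine ⟨?_, by positivity⟩
    rw [Int.cast_sub]
    have h5 : (((M : ℤ) : ℚ) - (r : ℚ)) / ((P : ℤ) : ℚ) -
        (((-(M : ℤ) - 1 : ℤ) : ℚ) - (r : ℚ)) / ((P : ℤ) : ℚ) + 1 ≤ 4 * M / P := by
      push_cast
      rw [← sub_div, div_add_one hP'.ne', div_le_div_iff_of_pos_right hP']
      have : (1 : ℚ) ≤ M := by exact_mod_cast le_trans hP hM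
      linarith
    linarith
  have h6 : ((((cls M P r).card : ℕ) : ℚ) : ℝ) ≤ ((4 * M / P : ℚ) : ℝ) := by exact_mod_cast h3
  push_cast at h6
  exact h6

/-- CL -/
theorem le_cls_card (M P : ℕ) (hP : 1 ≤ P) (hM : P ≤ M) (r : ℤ) :
    (M : ℝ) / P ≤ ((cls M P r).card : ℝ) := by
  have h := CL_card M P hP r
  have hP' : (0 : ℚ) < P := by exact_mod_cast hP
  have hM' : (P : ℚ) ≤ M := by exact_mod_cast hM
  have h1 := Int.lt_floor_add_one ((((M : ℤ) : ℚ) - (r : ℚ)) / ((P : ℤ) : ℚ))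
  have h2 := Int.floor_le ((((-(M : ℤ) - 1 : ℤ) : ℚ) - (r : ℚ)) / ((P : ℤ) : ℚ))
  have h3 : (M : ℚ) / P ≤ (((cls M P r).card : ℕ) : ℚ) := by
    have h4 : (((cls M P r).card : ℤ) : ℚ) = ((max (⌊(((M : ℤ) : ℚ) - (r : ℚ)) / ((P : ℤ) : ℚ)⌋ -
      ⌊(((-(M : ℤ) - 1 : ℤ) : ℚ) - (r : ℚ)) / ((P : ℤ) : ℚ)⌋) 0 : ℤ) : ℚ) := by
      rw [h]
    rw [Int.cast_natCast] at h4
    rw [h4, Int.cast_max]
    refine le_trans ?_ (le_max_left _ _)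
    rw [Int.cast_sub]
    have h5 : (M : ℚ) / P ≤ (((M : ℤ) : ℚ) - (r : ℚ)) / ((P : ℤ) : ℚ) -
        (((-(M : ℤ) - 1 : ℤ) : ℚ) - (r : ℚ)) / ((P : ℤ) : ℚ) - 1 := by
      push_cast
      rw [← sub_div, div_sub_one hP'.ne', div_le_div_iff_of_pos_right hP']
      linarith
    linarith
  have h6 : ((M / P : ℚ) : ℝ) ≤ ((((cls M P r).card : ℕ) : ℚ) : ℝ) := by exact_mod_cast h3
  push_cast at h6
  exact h6

end Pool.Agent.helper28.LT
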